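import Mathlib
import Pool.Agent.Helper857.Pad

set_option autoImplicit false

/-!
# The initial run of odd denominators of the hypergeometric Bernoulli numbers

For every `b ≥ 1` the least index `n` for which the denominator of the hypergeometric Bernoulli
number `B_n^{(b)}` is even is `ν₂(b) + 1` if `4 ∤ b` and `2 ^ ν₂(b)` if `4 ∣ b`
(in all cases it is `2 ^ ν₂(b)`).
-/

namespace Pool.Agent.Results.MP_375cbb_nt.FirstEven

open Finset PowerSeries

/-- `B` is the sequence of hypergeometric Bernoulli numbers of order `b`: as formal power series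
in `z`, `(e^z - ∑_{k < b} z^k / k!) * ∑_n B_n z^n / n! = z^b / b!`. -/
def IsHypBernoulli (b : ℕ) (B : ℕ → ℚ) : Prop :=
  (PowerSeries.exp ℚ - ∑ k ∈ range b, PowerSeries.C (1 / (k.factorial : ℚ)) * PowerSeries.X ^ k) *
      PowerSeries.mk (fun n => B n / (n.factorial : ℚ)) =
    PowerSeries.C (1 / (b.factorial : ℚ)) * PowerSeries.X ^ b

/-- the series `b! (e^z - ∑_{k<b} z^k/k!) / z^b` -/
noncomputable def E (b : ℕ) : PowerSeries ℚ :=
  PowerSeries.mk (fun n => (b.factorial : ℚ) / ((b + n).factorial : ℚ))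

lemma E_spec (b : ℕ) :
    PowerSeries.exp ℚ - ∑ k ∈ range b, PowerSeries.C (1 / (k.factorial : ℚ)) * PowerSeries.X ^ k =
      PowerSeries.C (1 / (b.factorial : ℚ)) * PowerSeries.X ^ b * E b := by
  ext n
  have hb : (b.factorial : ℚ) ≠ 0 := by exact_mod_cast b.factorial_ne_zero
  rw [map_sub, map_sum, PowerSeries.coeff_exp, mul_assoc, PowerSeries.coeff_C_mul,
    PowerSeries.coeff_X_pow_mul']
  have h1 : ∀ k ∈ range b, (PowerSeries.coeff n)
      (PowerSeries.C (1 / (k.factorial : ℚ)) * PowerSeries.X ^ k) =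
      if n = k then 1 / (k.factorial : ℚ) else 0 := by
    intro k _
    rw [PowerSeries.coeff_C_mul, PowerSeries.coeff_X_pow]
    split_ifs <;> simp
  rw [sum_congr rfl h1, sum_ite_eq]
  by_cases h : b ≤ n
  · rw [if_neg (by rw [mem_range]; omega), if_pos h, E, PowerSeries.coeff_mk,
      show b + (n - b) = n by omega]
    simp only [map_div₀, map_one, map_natCast, sub_zero]
    field_simp
  · rw [if_pos (by rw [mem_range]; omega), if_neg h]
    simp

lemma E_const (b : ℕ) : PowerSeries.constantCoeff (E b) = 1 := by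
  have hb : (b.factorial : ℚ) ≠ 0 := by exact_mod_cast b.factorial_ne_zero
  rw [← PowerSeries.coeff_zero_eq_constantCoeff_apply, E, PowerSeries.coeff_mk, add_zero,
    div_self hb]

lemma isHyp_iff (b : ℕ) (B : ℕ → ℚ) :
    IsHypBernoulli b B ↔ E b * PowerSeries.mk (fun n => B n / (n.factorial : ℚ)) = 1 := by
  have hb : (b.factorial : ℚ) ≠ 0 := by exact_mod_cast b.factorial_ne_zero
  have h0 : (PowerSeries.C (1 / (b.factorial : ℚ)) * PowerSeries.X ^ b : PowerSeries ℚ) ≠ 0 := by
    apply mul_ne_zero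
    · intro h
      have := congrArg PowerSeries.constantCoeff h
      rw [PowerSeries.constantCoeff_C, map_zero] at this
      exact (one_div_ne_zero hb) this
    · exact pow_ne_zero _ PowerSeries.X_ne_zero
  unfold IsHypBernoulli
  rw [E_spec]
  constructor
  · intro h
    apply mul_left_cancel₀ h0
    rw [← mul_assoc, h, mul_one]
  · intro h
    rw [mul_assoc, h, mul_one]

/-- the recurrence -/
lemma recur {b : ℕ} {B : ℕ → ℚ} (h : IsHypBernoulli b B) (n : ℕ) :
    ∑ k ∈ range (n + 1), (n.choose k : ℚ) * B k * ((b + (n - k)).choose b : ℚ)⁻¹ =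
      if n = 0 then 1 else 0 := by
  rw [isHyp_iff] at h
  have h1 := congrArg (PowerSeries.coeff n) h
  rw [PowerSeries.coeff_mul, PowerSeries.coeff_one,
    Nat.sum_antidiagonal_eq_sum_range_succ_mk] at h1
  have hn : (n.factorial : ℚ) ≠ 0 := by exact_mod_cast n.factorial_ne_zero
  have hb : (b.factorial : ℚ) ≠ 0 := by exact_mod_cast b.factorial_ne_zero
  have h2 : (n.factorial : ℚ) * (if n = 0 then (1:ℚ) else 0) = if n = 0 then 1 else 0 := by
    split_ifs with h0
    · subst h0; simp
    · simp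
  rw [← h2, ← h1, mul_sum, ← sum_range_reflect]
  apply sum_congr rfl
  intro k hk
  rw [mem_range] at hk
  have hk' : k ≤ n := by omega
  rw [E, PowerSeries.coeff_mk, PowerSeries.coeff_mk]
  have e1 : n + 1 - 1 - k = n - k := by omega
  rw [e1, show n - (n - k) = k by omega]
  rw [Nat.cast_choose ℚ (show n - k ≤ n by omega), Nat.cast_choose ℚ (show b ≤ b + k by omega),
    show n - (n - k) = k by omega, show b + k - b = k by omega]
  have f1 : (k.factorial : ℚ) ≠ 0 := by exact_mod_cast k.factorial_ne_zero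
  have f2 : ((n - k).factorial : ℚ) ≠ 0 := by exact_mod_cast (n - k).factorial_ne_zero
  have f3 : ((b + k).factorial : ℚ) ≠ 0 := by exact_mod_cast (b + k).factorial_ne_zero
  field_simp

lemma choose_odd : ∀ v b m : ℕ, 2 ^ v ∣ b → m < 2 ^ v → ¬ 2 ∣ (b + m).choose b := by
  intro v
  induction v with
  | zero =>
    intro b m _ hm
    have : m = 0 := by simpa using hm
    subst this
    simp
  | succ v ih =>
    intro b m hb hm
    have hb2 : 2 ∣ b := dvd_trans (dvd_pow_self 2 (by omega)) hb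
    obtain ⟨c, rfl⟩ := hb2
    have hc : 2 ^ v ∣ c := by
      rw [pow_succ, mul_comm] at hb
      exact Nat.dvd_of_mul_dvd_mul_left (by norm_num) hb
    have h1 := Choose.choose_modEq_choose_mod_mul_choose_div_nat (n := 2 * c + m) (k := 2 * c) (p := 2)
    rw [show 2 * c % 2 = 0 by omega, Nat.choose_zero_right, one_mul,
      show (2 * c + m) / 2 = c + m / 2 by omega, show 2 * c / 2 = c by omega] at h1
    have h2 := ih c (m / 2) hc (by rw [pow_succ] at hm; omega)
    intro h3
    apply h2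
    exact (h1.dvd_iff (dvd_refl 2)).1 h3

lemma choose_even : ∀ v c : ℕ, ¬ 2 ∣ c → 2 ∣ (2 ^ v * c + 2 ^ v).choose (2 ^ v * c) := by
  intro v
  induction v with
  | zero =>
    intro c hc
    rw [pow_zero, one_mul, Nat.choose_succ_self_right]
    omega
  | succ v ih =>
    intro c hc
    have h1 := Choose.choose_modEq_choose_mod_mul_choose_div_nat
      (n := 2 ^ (v + 1) * c + 2 ^ (v + 1)) (k := 2 ^ (v + 1) * c) (p := 2)
    have e1 : 2 ^ (v + 1) * c = 2 * (2 ^ v * c) := by ring
    have e2 : 2 ^ (v + 1) = 2 * 2 ^ v := by ring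
    rw [e1, e2, show 2 * (2 ^ v * c) % 2 = 0 by omega, Nat.choose_zero_right, one_mul,
      show (2 * (2 ^ v * c) + 2 * 2 ^ v) / 2 = 2 ^ v * c + 2 ^ v by omega,
      show 2 * (2 ^ v * c) / 2 = 2 ^ v * c by omega] at h1
    rw [e1, e2]
    exact (h1.dvd_iff (dvd_refl 2)).2 (ih c hc)

open Pool.Agent.Helper857.Pad in
lemma run {b : ℕ} {B : ℕ → ℚ} (h : IsHypBernoulli b B) {v : ℕ} (hv : 2 ^ v ∣ b) :
    ∀ n < 2 ^ v, B n ∈ Zp 2 := by
  intro n
  induction n using Nat.strong_induction_on with
  | _ n ih =>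
    intro hn
    have h1 := recur h n
    rw [sum_range_succ, Nat.sub_self, add_zero, Nat.choose_self, Nat.choose_self] at h1
    simp only [Nat.cast_one, one_mul, inv_one, mul_one] at h1
    have e : B n = (if n = 0 then (1:ℚ) else 0) -
        ∑ k ∈ range n, (n.choose k : ℚ) * B k * ((b + (n - k)).choose b : ℚ)⁻¹ := by
      rw [← h1]; ring
    rw [e]
    apply (Zp 2).sub_mem
    · split_ifs
      · exact (Zp 2).one_mem
      · exact (Zp 2).zero_mem
    · apply (Zp 2).sum_mem
      intro k hk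
      rw [mem_range] at hk
      refine (Zp 2).mul_mem ((Zp 2).mul_mem (nat_mem _) (ih k hk (by omega))) ?_
      exact inv_nat_mem (choose_odd v b (n - k) hv (by omega))

open Pool.Agent.Helper857.Pad in
lemma last {b : ℕ} {B : ℕ → ℚ} (h : IsHypBernoulli b B) {v c : ℕ} (hb : b = 2 ^ v * c)
    (hc : ¬ 2 ∣ c) : B (2 ^ v) ∉ Zp 2 := by
  intro hmem
  have hv : 2 ^ v ∣ b := ⟨c, hb⟩
  have hpos : 0 < 2 ^ v := by positivity
  have h1 := recur h (2 ^ v)
  rw [if_neg hpos.ne', sum_range_succ, Nat.sub_self, add_zero, Nat.choose_self,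
    Nat.choose_self] at h1
  simp only [Nat.cast_one, one_mul, inv_one, mul_one] at h1
  obtain ⟨w, hw⟩ : ∃ w, 2 ^ v = w + 1 := ⟨2 ^ v - 1, by omega⟩
  have h0 := recur h 0
  simp at h0
  have h2 : ((b + 2 ^ v).choose b : ℚ)⁻¹ ∈ Zp 2 := by
    rw [hw, sum_range_succ', ← hw] at h1
    simp only [Nat.choose_zero_right, Nat.cast_one, one_mul, h0, Nat.sub_zero] at h1
    have e : ((b + 2 ^ v).choose b : ℚ)⁻¹ = - B (2 ^ v) -
        ∑ k ∈ range w, ((2 ^ v).choose (k + 1) : ℚ) * B (k + 1) *
          ((b + (2 ^ v - (k + 1))).choose b : ℚ)⁻¹ := by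
      linarith
    rw [e]
    apply (Zp 2).sub_mem ((Zp 2).neg_mem hmem)
    apply (Zp 2).sum_mem
    intro k hk
    rw [mem_range] at hk
    refine (Zp 2).mul_mem ((Zp 2).mul_mem (nat_mem _) (run h hv (k + 1) (by omega))) ?_
    exact inv_nat_mem (choose_odd v b (2 ^ v - (k + 1)) hv (by omega))
  obtain ⟨d, hd⟩ := choose_even v c hc
  rw [hb, hd, mem_Zp, Rat.inv_natCast_den_of_pos] at h2
  · exact h2 (dvd_mul_right 2 d)
  · rw [← hd]; exact Nat.choose_pos (by omega)

/-- **Theorem.** Let `b ≥ 1`. There is exactly one sequence `B` of rational numbers with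
`(e^z - ∑_{k<b} z^k/k!) ∑_n B_n z^n/n! = z^b/b!` (the hypergeometric Bernoulli numbers of order
`b`), and the least `n` such that the denominator of `B_n` in lowest terms is even is
`ν₂(b) + 1` if `4 ∤ b` and `2 ^ ν₂(b)` if `4 ∣ b`. -/
theorem result : ∀ b : ℕ, 1 ≤ b → ∃ B : ℕ → ℚ, IsHypBernoulli b B ∧
    (∀ B' : ℕ → ℚ, IsHypBernoulli b B' → B' = B) ∧
    IsLeast {n : ℕ | Even (B n).den}
      (if 4 ∣ b then 2 ^ padicValNat 2 b else padicValNat 2 b + 1) := by
  intro b hb
  have hu : E b * (E b)⁻¹ = 1 := PowerSeries.mul_inv_cancel _ (by rw [E_const]; norm_num)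
  have huniq : ∀ B B' : ℕ → ℚ, IsHypBernoulli b B → IsHypBernoulli b B' → B' = B := by
    intro B B' h h'
    rw [isHyp_iff] at h h'
    have hE : E b ≠ 0 := by
      intro h0
      have := E_const b
      rw [h0, map_zero] at this
      exact zero_ne_one this
    have h3 := mul_left_cancel₀ hE (h'.trans h.symm)
    funext n
    have h4 := congrArg (PowerSeries.coeff n) h3
    rw [PowerSeries.coeff_mk, PowerSeries.coeff_mk] at h4
    have hn : (n.factorial : ℚ) ≠ 0 := by exact_mod_cast n.factorial_ne_zero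
    exact (div_left_inj' hn).1 h4
  set B : ℕ → ℚ := fun n => (n.factorial : ℚ) * PowerSeries.coeff n (E b)⁻¹ with hB
  have hBB : IsHypBernoulli b B := by
    rw [isHyp_iff]
    have : PowerSeries.mk (fun n => B n / (n.factorial : ℚ)) = (E b)⁻¹ := by
      ext n
      rw [PowerSeries.coeff_mk, hB]
      have hn : (n.factorial : ℚ) ≠ 0 := by exact_mod_cast n.factorial_ne_zero
      field_simp
    rw [this, hu]
  refine ⟨B, hBB, fun B' h' => huniq B B' hBB h', ?_⟩
  obtain ⟨v, c, hc, hbc⟩ := Nat.exists_eq_pow_mul_and_not_dvd (n := b) (by omega) 2 (by norm_num)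
  have hval : padicValNat 2 b = v := by
    have hc0 : c ≠ 0 := by rintro rfl; exact hc (dvd_zero 2)
    rw [hbc, padicValNat.mul (by positivity) hc0, padicValNat.prime_pow,
      padicValNat.eq_zero_of_not_dvd hc, add_zero]
  have hif : (if 4 ∣ b then 2 ^ padicValNat 2 b else padicValNat 2 b + 1) = 2 ^ v := by
    rw [hval]
    split_ifs with h4
    · rfl
    · have hv2 : v < 2 := by
        by_contra hge
        apply h4
        rw [hbc]
        exact dvd_mul_of_dvd_left (pow_dvd_pow 2 (show 2 ≤ v by omega)) c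
      interval_cases v <;> norm_num
  rw [hif]
  constructor
  · have := last hBB hbc hc
    rw [Pool.Agent.Helper857.Pad.mem_Zp, not_not] at this
    exact even_iff_two_dvd.2 this
  · intro n hn
    by_contra hlt
    have := run hBB (v := v) ⟨c, hbc⟩ n (by omega)
    rw [Pool.Agent.Helper857.Pad.mem_Zp] at this
    exact this (even_iff_two_dvd.1 hn)

end Pool.Agent.Results.MP_375cbb_nt.FirstEven
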